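import Pool.Agent.Y560.TG.Stm

/-!
Project TG: no combs of big classes.
-/

set_option autoImplicit false

namespace Pool.Agent.Y870.TG

open Set MeasureTheory
open Pool.Agent.H899R2.VP (St Adj PIso BF IsoOn idOn inv comp zipSet)
open Pool.Agent.H533R2.VO (RS lift put OS Ic RIso Dich VC BlkV S_FINAL)
open Pool.Agent.H566P (ar R2 v2 a0 a1 lt ac co mk LA LL MB lab sh prec pull S_ACC S_MSG)
open Pool.Agent.Y560.TG

/-- the type of the class of `v` over `u` occurs in a structure with numbers below `s` -/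
def Oc (R : R2) (y d : ℕ → ℕ) (V : ℕ → R2) (s : ℕ) (Y : R2) (u v : ℕ) : Prop :=
  ∃ (S : Set ℕ) (u' v' : ℕ), (∀ s' ∈ S, s' < s) ∧
    IsoOn (lift (lb Y u)) (lift (lb (FX R y d V S) u')) (Ob Y u v) (Ob (FX R y d V S) u' v') ∅

/-- the decoding predicate -/
def Ls (R : R2) (y d : ℕ → ℕ) (V : ℕ → R2) (s : ℕ) (Y : R2) (z : ℕ) : Prop :=
  ∃ w, ∀ u v, Disjoint (Ob Y u v) (Ob Y z w) → Oc R y d V s Y u v

/-- invariance of the decoding predicate under isomorphisms -/
theorem Ls_inv (hT : S_TRQ) {R : R2} {y d : ℕ → ℕ} {V : ℕ → R2} {s : ℕ} {Y Y' : R2}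
    {q : Set (ℕ × ℕ)} (hq : IsoOn (lift Y) (lift Y') univ univ q)
    (h1 : ∀ x, ∃ x', (x, x') ∈ q) (h2 : ∀ x', ∃ x, (x, x') ∈ q) {z z' : ℕ} (hz : (z, z') ∈ q)
    (h : Ls R y d V s Y z) : Ls R y d V s Y' z' := by
  obtain ⟨w, hw⟩ := h
  obtain ⟨w', hw'⟩ := h1 w
  have hmem : ∀ {u u' v v' t t' : ℕ}, (u, u') ∈ q → (v, v') ∈ q → (t, t') ∈ q →
      (t ∈ Ob Y u v ↔ t' ∈ Ob Y' u' v') := fun hu hv ht =>
    hT.2.1 Y Y' q _ _ _ _ _ _ (hq.bf 3) hu hv ht
  refine ⟨w', fun u' v' hd => ?_⟩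
  obtain ⟨u, hu⟩ := h2 u'
  obtain ⟨v, hv⟩ := h2 v'
  have hd' : Disjoint (Ob Y u v) (Ob Y z w) := by
    rw [Set.disjoint_left] at hd ⊢
    intro t ht ht2
    obtain ⟨t', ht'⟩ := h1 t
    exact hd ((hmem hu hv ht').1 ht) ((hmem hz hw' ht').1 ht2)
  obtain ⟨S, a, b, hS, hi⟩ := hw u v hd'
  refine ⟨S, a, b, hS, ?_⟩
  have h3 := hT.2.2.2.1 Y Y' q u u' v v' hq hu hv
  exact iso_trans0 (iso_symm0 (h3.mono (empty_subset _))) hi

theorem exists_bij {Y Y' : R2} (h : IsoOn (lift Y) (lift Y') univ univ ∅) :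
    ∃ q : Set (ℕ × ℕ), IsoOn (lift Y) (lift Y') univ univ q ∧
      IsoOn (lift Y') (lift Y) univ univ (inv q) ∧
      (∀ x, ∃ x', (x, x') ∈ q) ∧ (∀ x', ∃ x, (x, x') ∈ q) := by
  obtain ⟨q, h1, h2, h3, h4, h5⟩ := h
  have hq : IsoOn (lift Y) (lift Y') univ univ q := ⟨q, Subset.rfl, h2, h3, h4, h5⟩
  exact ⟨q, hq, hq.symm, fun x => h4 x (mem_univ _), fun x => h5 x (mem_univ _)⟩

theorem mem_Se_odd {ε : ℕ → Bool} {k : ℕ} : 2 * k + 1 ∈ Se ε ↔ ε k = true := by
  unfold Se
  constructor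
  · rintro ⟨j, hj⟩
    rcases hb : ε j with _ | _
    · rw [hb] at hj
      simp at hj
      omega
    · rw [hb] at hj
      simp at hj
      rw [hj]; exact hb
  · intro h
    exact ⟨k, by rw [h]; rfl⟩

theorem mem_Se_even {ε : ℕ → Bool} {k : ℕ} : 2 * k ∈ Se ε ↔ ε k = false := by
  unfold Se
  constructor
  · rintro ⟨j, hj⟩
    rcases hb : ε j with _ | _
    · rw [hb] at hj
      simp at hj
      rw [hj]; exact hb
    · rw [hb] at hj
      simp at hj
      omega
  · intro h
    exact ⟨k, by rw [h]; rfl⟩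

theorem pick_Se (R : R2) (V : ℕ → R2) (ε : ℕ → Bool) (k : ℕ) :
    pick R V (Se ε) (some k) = V (2 * k + (ε k).toNat) := by
  simp only [pick]
  rcases hb : ε k with _ | _
  · have h1 : 2 * k + 1 ∉ Se ε := fun h => by
      rw [mem_Se_odd, hb] at h
      exact absurd h (by simp)
    rw [if_neg h1, if_pos (mem_Se_even.2 hb)]
    rfl
  · rw [if_pos (mem_Se_odd.2 hb)]
    rfl

theorem pick_congr (R : R2) (V : ℕ → R2) {S S' : Set ℕ} {k : ℕ}
    (h1 : 2 * k + 1 ∈ S ↔ 2 * k + 1 ∈ S') (h2 : 2 * k ∈ S ↔ 2 * k ∈ S') :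
    pick R V S (some k) = pick R V S' (some k) := by
  simp only [pick]
  by_cases a : 2 * k + 1 ∈ S
  · rw [if_pos a, if_pos (h1.1 a)]
  · rw [if_neg a, if_neg (fun h => a (h1.2 h))]
    by_cases b : 2 * k ∈ S
    · rw [if_pos b, if_pos (h2.1 b)]
    · rw [if_neg b, if_neg (fun h => b (h2.2 h))]

theorem t_C2 (hG : S_GEO) (hT : S_TRQ) (h1 : S_FAM1) (h2 : S_FAM2) (h3 : S_SEQ) : S_C2 := by
  intro Γ _ g hg α R hR hα hα1 hFew
  rintro ⟨y, d, a1, a2, a3, a4, a5⟩
  obtain ⟨G1, G2, -, -, -, -, G7, -, G9, -⟩ := hG Γ g hg R hR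
  set O : ℕ → Set ℕ := fun k => Ob R (y k) (d k) with hO
  set E : ℕ → Set ℕ := fun k => Ob R (y k) (y (k + 1)) with hE
  have hE1 : ∀ k, y (k + 1) ∈ E k := fun k => G1 _ _
  have hEs : ∀ k, E (k + 1) ⊆ E k := fun k => G7 _ _ _ _ (hE1 k) (a5 k)
  have hOs : ∀ k, O (k + 1) ⊆ E k := fun k => G7 _ _ _ _ (hE1 k) (a4 k)
  have hEa : Antitone E := antitone_nat_of_succ_le hEs
  have hOE : ∀ {j k}, k < j → O j ⊆ E k := by
    intro j k hjk
    obtain ⟨i, rfl⟩ : ∃ i, j = i + 1 := ⟨j - 1, by omega⟩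
    exact (hOs i).trans (hEa (by omega))
  have hyE : ∀ {j k}, k < j → y j ∈ E k := by
    intro j k hjk
    obtain ⟨i, rfl⟩ : ∃ i, j = i + 1 := ⟨j - 1, by omega⟩
    exact hEa (by omega : k ≤ i) (hE1 i)
  have hdO : ∀ k, d k ∈ O k := fun k => G1 _ _
  have hOEd : ∀ k, Disjoint (O k) (E k) := by
    intro k
    rw [Set.disjoint_left]
    intro t ht ht'
    have e1 : Ob R (y k) t = O k := G2 _ _ _ ht
    have e2 : Ob R (y k) t = E k := G2 _ _ _ ht'
    apply a3 k
    change d k ∈ E k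
    rw [← e2, e1]
    exact hdO k
  have hdis : ∀ j k, j ≠ k → Disjoint (O j) (O k) := by
    have key : ∀ j k, j < k → Disjoint (O j) (O k) := fun j k hjk =>
      (hOEd j).mono_right (hOE hjk)
    intro j k hjk
    rcases lt_or_gt_of_ne hjk with h | h
    · exact key j k h
    · exact (key k j h).symm
  have hout : ∀ j k, y j ∉ O k := by
    intro j k
    rcases lt_trichotomy j k with h | h | h
    · intro h'
      have h4 : y j ∈ E j := hOE h h'
      exact a2 j ((G9 _ _).1.1 h4)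
    · subst h
      intro h'
      exact (a1 j).1 ((G9 _ _).1.1 h')
    · intro h'
      exact Set.disjoint_left.1 (hOEd k) h' (hyE h)
  obtain ⟨V, hFm, hNew⟩ := h3 Γ g hg α R y d hR hα hout hdis (fun k => (a1 k).2)
  obtain ⟨f1, f2, f3, f4, f5, f6⟩ := h1 Γ g hg α R y d V hFm
  -- the main claim
  have claim : ∀ (ε : ℕ → Bool) (s z : ℕ), Ls R y d V s (FX R y d V (Se ε)) z ↔
      ∃ w, ∀ j, s ≤ 2 * j + (ε j).toNat → O j ⊆ Ob (FX R y d V (Se ε)) z w := by
    intro ε s z
    set X := FX R y d V (Se ε) with hX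
    obtain ⟨X1, X2, -, -, -, -, X7, X8, -, -⟩ := hG Γ g hg X (f2 _)
    constructor
    · rintro ⟨w, hw⟩
      refine ⟨w, ?_⟩
      have hmeet : ∀ j, s ≤ 2 * j + (ε j).toNat → ∃ t, t ∈ O j ∧ t ∈ Ob X z w := by
        intro j hj
        by_contra hcon
        push Not at hcon
        have hd : Disjoint (Ob X (y j) (d j)) (Ob X z w) := by
          rw [hX, f3]
          rw [Set.disjoint_left]
          exact hcon
        obtain ⟨S, u', v', hS, hi⟩ := hw _ _ hd
        have e4 := f4 (Se ε) j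
        rw [pick_Se, ← hX] at e4
        rw [hX, f3, ← hX] at hi
        have hb : (ε j).toNat ≤ 1 := Bool.toNat_le _
        have hdiv : (2 * j + (ε j).toNat) / 2 = j := by omega
        have hn := hNew (2 * j + (ε j).toNat) S (fun s' hs' => lt_of_lt_of_le (hS s' hs') hj) u' v'
        rw [hdiv] at hn
        exact hn (iso_trans0 (iso_symm0 hi) (iso_symm0 (e4.mono (empty_subset _))))
      have hzO : ∀ j, s ≤ 2 * j + (ε j).toNat → z ∉ O j := by
        intro j hj hz
        obtain ⟨e, he1, he2⟩ := hmeet j hj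
        have e1 : Ob X z e = Ob X z w := X2 _ _ _ he2
        have hOj : Ob X (y j) (d j) = O j := f3 _ _
        have e2 : Ob X z e ⊆ Ob X (y j) (d j) := X7 _ _ _ _ (by rw [hOj]; exact hz)
          (by rw [hOj]; exact he1)
        rw [e1, hOj] at e2
        obtain ⟨e', he1', he2'⟩ := hmeet (max s (j + 1)) (by
          have := le_max_left s (j + 1)
          omega)
        have hne : max s (j + 1) ≠ j := by
          have := le_max_right s (j + 1)
          omega
        exact Set.disjoint_left.1 (hdis _ _ hne) he1' (e2 he2')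
      intro j hj
      obtain ⟨e, he1, he2⟩ := hmeet j hj
      have hOj : Ob X (y j) (d j) = O j := f3 _ _
      have e1 : Ob X z e = Ob X z w := X2 _ _ _ he2
      have e2 : Ob X (y j) e = Ob X (y j) (d j) := X2 _ _ _ (by rw [hOj]; exact he1)
      have e3 : Ob X (y j) e ⊆ Ob X z e := X8 _ _ _ (by rw [e2, hOj]; exact hzO j hj)
      rw [e1, e2, hOj] at e3
      exact e3
    · rintro ⟨w, hw⟩
      refine ⟨w, fun u v hd => ?_⟩
      set J : Set ℕ := {j | s ≤ 2 * j + (ε j).toNat} with hJ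
      set S' : Set ℕ := {s' | s' ∈ Se ε ∧ s' < s} with hS'
      have hpick : ∀ k ∉ J, pick R V (Se ε) (some k) = pick R V S' (some k) := by
        intro k hk
        have hk' : 2 * k + (ε k).toNat < s := by
          rw [hJ] at hk
          simpa using hk
        have m1 : 2 * k + 1 ∈ Se ε ↔ 2 * k + 1 ∈ S' := by
          constructor
          · intro h
            refine ⟨h, ?_⟩
            rw [mem_Se_odd] at h
            rw [h] at hk'
            simpa using hk'
          · exact fun h => h.1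
        have m2 : 2 * k ∈ Se ε ↔ 2 * k ∈ S' := by
          constructor
          · intro h
            exact ⟨h, by omega⟩
          · exact fun h => h.1
        exact pick_congr R V m1 m2
      have hvO : ∀ j ∈ J, v ∉ Ob R (y j) (d j) := by
        intro j hj hv
        exact Set.disjoint_left.1 hd (X1 u v) (hw j hj hv)
      obtain ⟨e1, e2⟩ := h2 Γ g hg α R y d V hFm (Se ε) S' J hpick u v hvO
      refine ⟨S', u, v, fun s' hs' => hs'.2, ?_⟩
      apply e2
      intro j hj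
      exact hd.mono_right (hw j hj)
  -- decoding
  have dec : ∀ (ε : ℕ → Bool) (k : ℕ), ε k = true ↔
      ∀ z, (Ls R y d V (2 * k) (FX R y d V (Se ε)) z ↔
        Ls R y d V (2 * k + 1) (FX R y d V (Se ε)) z) := by
    intro ε k
    obtain ⟨X1, X2, -⟩ := hG Γ g hg (FX R y d V (Se ε)) (f2 _)
    constructor
    · intro hk z
      rw [claim, claim]
      have hiff : ∀ j, (2 * k ≤ 2 * j + (ε j).toNat ↔ 2 * k + 1 ≤ 2 * j + (ε j).toNat) := by
        intro j
        have hb : (ε j).toNat ≤ 1 := Bool.toNat_le _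
        by_cases hjk : j = k
        · subst hjk
          have : (ε j).toNat = 1 := by rw [hk]; rfl
          omega
        · omega
      simp only [hiff]
    · intro hall
      by_contra hk
      have hk0 : ε k = false := by simpa using hk
      have hk1 : (ε k).toNat = 0 := by rw [hk0]; rfl
      have hpos : Ls R y d V (2 * k + 1) (FX R y d V (Se ε)) (y k) := by
        rw [claim]
        refine ⟨y (k + 1), ?_⟩
        have e1 := (h2 Γ g hg α R y d V hFm (Se ε) ∅ univ (fun k hk => absurd (mem_univ k) hk)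
          (y k) (y (k + 1)) (fun j _ => hout _ _)).1
        rw [f5] at e1
        rw [e1]
        intro j hj
        have hjk : k < j := by
          by_contra hcon
          have hb : (ε j).toNat ≤ 1 := Bool.toNat_le _
          have hjk : j = k := by omega
          rw [hjk, hk1] at hj
          omega
        exact hOE hjk
      have hneg := (hall (y k)).2 hpos
      rw [claim] at hneg
      obtain ⟨w, hw⟩ := hneg
      have m1 : O k ⊆ Ob (FX R y d V (Se ε)) (y k) w := hw k (by omega)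
      have m2 : O (k + 1) ⊆ Ob (FX R y d V (Se ε)) (y k) w := hw (k + 1) (by omega)
      have e1 : Ob (FX R y d V (Se ε)) (y k) (d k) = Ob (FX R y d V (Se ε)) (y k) w :=
        X2 _ _ _ (m1 (hdO k))
      rw [← e1, f3] at m2
      exact Set.disjoint_left.1 (hdis k (k + 1) (by omega)) (m2 (hdO (k + 1))) (hdO (k + 1))
  -- the end
  apply hFew
  refine ⟨fun ε => FX R y d V (Se ε), f6, fun ε => (f1 (Se ε)).subset (empty_subset _), ?_⟩
  intro ε ε' hiso
  rw [riso_isoOn] at hiso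
  obtain ⟨q, q1, q2, q3, q4⟩ := exists_bij hiso
  have hLs : ∀ s z z', (z, z') ∈ q → (Ls R y d V s (FX R y d V (Se ε)) z ↔
      Ls R y d V s (FX R y d V (Se ε')) z') := by
    intro s z z' hz
    constructor
    · exact Ls_inv hT q1 q3 q4 hz
    · exact Ls_inv hT q2 (fun x => q4 x) (fun x => q3 x) (z := z') (z' := z) hz
  funext k
  rw [Bool.eq_iff_iff, dec ε k, dec ε' k]
  constructor
  · intro h z'
    obtain ⟨z, hz⟩ := q4 z'
    rw [← hLs _ z z' hz, ← hLs _ z z' hz]
    exact h z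
  · intro h z
    obtain ⟨z', hz⟩ := q3 z
    rw [hLs _ z z' hz, hLs _ z z' hz]
    exact h z'

end Pool.Agent.Y870.TG
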